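import Pool.Agent.Helper37.SU.Stmts

set_option autoImplicit false

namespace Pool.Agent.Helper37.SU

open MeasureTheory Finset
open scoped ENNReal Classical

theorem an0_dop {d : ℕ} (b : ℕ) (s : Fin d → ℕ) (Λ : Finset (Fin d → ℤ))
    (c : (Fin d → ℤ) → ℂ) (t : TT d) :
    Dop b s (tp Λ c) t = ∑ k ∈ Λ, c k * ∏ i, D1 b (s i) (k i) (t i) := by
  unfold Dop tp gr
  simp only [Finset.sum_mul]
  rw [Finset.sum_comm]
  refine Finset.sum_congr rfl fun k _ => ?_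
  unfold D1
  rw [Finset.prod_univ_sum, Finset.mul_sum]
  refine Finset.sum_congr rfl fun a _ => ?_
  rw [mul_assoc, ← Finset.prod_mul_distrib]
  rfl

theorem an0_one (hK : ST_KAP) (hD : ST_DKS) (b : ℕ) (hb : 3 ≤ b) (k : ℤ) (j : ℕ)
    (hj : 4 * |k| ≤ (b : ℤ) ^ j) (J : ℕ) (hJ : j + 2 ≤ J) (s : ℕ) (t : UnitAddCircle) :
    ∑ τ ∈ range J, ((dkc b (s + τ - 1) k : ℝ) : ℂ) * D1 b s k t = D1 b s k t := by
  rcases Nat.eq_zero_or_pos s with h0 | h0
  · subst h0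
    have : D1 b 0 k t = 0 := by
      unfold D1 kap
      simp
    rw [this]; simp
  obtain ⟨s', rfl⟩ : ∃ s', s = s' + 1 := ⟨s - 1, by omega⟩
  have h1 : ∀ τ, s' + 1 + τ - 1 = s' + τ := fun τ => by omega
  simp only [h1]
  have h2 : ∑ i ∈ range (s' + J), dkc b i k = 1 := (hD b k (by omega)).1 j hj _ (by omega)
  have h3 : ∑ τ ∈ range J, ((dkc b (s' + τ) k : ℝ) : ℂ) * D1 b (s' + 1) k t
      = (∑ i ∈ range (s' + J), ((dkc b i k : ℝ) : ℂ) * D1 b (s' + 1) k t)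
        - ∑ i ∈ range s', ((dkc b i k : ℝ) : ℂ) * D1 b (s' + 1) k t := by
    rw [Finset.sum_range_add]
    ring
  have h4 : ∑ i ∈ range s', ((dkc b i k : ℝ) : ℂ) * D1 b (s' + 1) k t = 0 := by
    refine Finset.sum_eq_zero fun σ hσ => ?_
    have hσ' : σ < s' := mem_range.1 hσ
    by_cases h5 : dkc b σ k = 0
    · rw [h5]; simp
    have h6 : 1 ≤ σ := by
      by_contra h6
      apply h5
      have : σ = 0 := by omega
      subst this
      unfold dkc
      simp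
    have h7 := (hD b k (by omega)).2.2.1 σ h6 h5
    obtain ⟨u, rfl⟩ : ∃ u, s' = u + 1 := ⟨s' - 1, by omega⟩
    have h8 : 4 * |k| ≤ (b : ℤ) ^ u := by
      have h9 : (3 : ℤ) * (b : ℤ) ^ (σ - 1) ≤ (b : ℤ) ^ σ := by
        obtain ⟨v, rfl⟩ : ∃ v, σ = v + 1 := ⟨σ - 1, by omega⟩
        rw [Nat.add_sub_cancel, pow_succ, mul_comm]
        have : (3 : ℤ) ≤ (b : ℤ) := by exact_mod_cast hb
        exact mul_le_mul_of_nonneg_left this (by positivity)
      have h10 : (b : ℤ) ^ σ ≤ (b : ℤ) ^ u :=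
        pow_le_pow_right₀ (by exact_mod_cast (by omega : 1 ≤ b)) (by omega)
      linarith
    rw [show u + 1 + 1 = u + 2 by ring, (hK b hb).2.2 u k t h8, mul_zero]
  rw [h3, h4, sub_zero, ← Finset.sum_mul, ← Complex.ofReal_sum, h2]
  simp

theorem st_AN0 (hK : ST_KAP) (hD : ST_DKS) : ST_AN0 := by
  intro b d r Λ c hb
  set j : ℕ := ∑ k ∈ Λ, ∑ i, (4 * |k i|).toNat with hj
  have hjk : ∀ k ∈ Λ, ∀ i, 4 * |k i| ≤ (b : ℤ) ^ j := by
    intro k hk i
    have h1 : (4 * |k i|).toNat ≤ j := by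
      refine le_trans ?_ (Finset.single_le_sum (f := fun k : Fin d → ℤ => ∑ i, (4 * |k i|).toNat)
        (fun _ _ => Nat.zero_le _) hk)
      exact Finset.single_le_sum (f := fun i => (4 * |k i|).toNat)
        (fun _ _ => Nat.zero_le _) (mem_univ i)
    have h2 : j < b ^ j := Nat.lt_pow_self (by omega)
    have h3 : 4 * |k i| ≤ ((4 * |k i|).toNat : ℤ) := Int.self_le_toNat _
    have h4 : ((4 * |k i|).toNat : ℤ) ≤ ((b ^ j : ℕ) : ℤ) := by exact_mod_cast h1.trans h2.le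
    rw [Nat.cast_pow] at h4
    exact h3.trans h4
  refine ⟨j + 2, fun J hJ s t => ?_⟩
  rw [an0_dop]
  have h1 : ∀ τ : Fin d → ℕ, Dop b s (dl r b (fun i => s i + τ i - 1) Λ c) t
      = ∑ k ∈ Λ, mc r c k * ∏ i, (((dkc b (s i + τ i - 1) (k i) : ℝ) : ℂ)
        * D1 b (s i) (k i) (t i)) := by
    intro τ
    have : dl r b (fun i => s i + τ i - 1) Λ c
        = tp Λ (fun k => (∏ i, ((dkc b (s i + τ i - 1) (k i) : ℝ) : ℂ)) * mc r c k) := rfl
    rw [this, an0_dop]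
    refine Finset.sum_congr rfl fun k _ => ?_
    rw [Finset.prod_mul_distrib]
    ring
  simp only [h1]
  rw [Finset.sum_comm]
  refine Finset.sum_congr rfl fun k hk => ?_
  rw [← Finset.mul_sum]
  congr 1
  rw [← Finset.prod_univ_sum (fun _ : Fin d => range J)
    (fun i τ => ((dkc b (s i + τ - 1) (k i) : ℝ) : ℂ) * D1 b (s i) (k i) (t i))]
  refine Finset.prod_congr rfl fun i _ => ?_
  exact (an0_one hK hD b hb (k i) j (hjk k hk i) J hJ (s i) (t i)).symm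

end Pool.Agent.Helper37.SU
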