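import Pool.Agent.Helper37.SU.Stmts

set_option autoImplicit false

namespace Pool.Agent.Helper37.SU

open MeasureTheory Finset
open scoped ENNReal Classical

instance an1_inst : IsProbabilityMeasure haar1 := by
  unfold haar1
  infer_instance

instance an1_inst_d {d : ℕ} : IsProbabilityMeasure (haar d) := by
  unfold haar
  infer_instance

theorem an1_orth (n : ℤ) : ∫ y, (fourier n y : ℂ) ∂haar1 = if n = 0 then 1 else 0 := by
  split_ifs with h
  · subst h
    simp
  · unfold haar1
    exact integral_eq_zero_of_add_right_eq_neg (fourier_add_half_inv_index h one_pos)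

theorem an1_dkc0 (hD : ST_DKS) (b : ℕ) (hb : 2 ≤ b) (σ : ℕ) (k : ℤ)
    (hk : k ∉ Icc (-((b : ℤ) ^ σ)) ((b : ℤ) ^ σ)) : dkc b σ k = 0 := by
  by_contra h
  have h6 : 1 ≤ σ := by
    by_contra h6
    apply h
    have : σ = 0 := by omega
    subst this
    unfold dkc
    simp
  have h7 := (hD b k hb).2.2.1 σ h6 h
  apply hk
  have h8 : (b : ℤ) ^ (σ - 1) ≤ (b : ℤ) ^ σ :=
    pow_le_pow_right₀ (by exact_mod_cast (by omega : 1 ≤ b)) (by omega)
  have h9 : 0 < (b : ℤ) ^ σ := by positivity
  have h10 : |k| ≤ (b : ℤ) ^ σ := by linarith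
  rw [mem_Icc]
  exact abs_le.1 h10

theorem an1_one (hD : ST_DKS) (b : ℕ) (hb : 2 ≤ b) (r : ℝ) (σ : ℕ) (k : ℤ)
    (t : UnitAddCircle) :
    ∫ y, (fourier k y : ℂ) * fk r b σ (t - y) ∂haar1
      = mult r k * ((dkc b σ k : ℝ) : ℂ) * fourier k t := by
  have h1 : ∀ y : UnitAddCircle, (fourier k y : ℂ) * fk r b σ (t - y)
      = ∑ k' ∈ Icc (-((b : ℤ) ^ σ)) ((b : ℤ) ^ σ),
        (mult r k' * ((dkc b σ k' : ℝ) : ℂ) * fourier k' t) * (fourier (k - k') y : ℂ) := by
    intro y
    unfold fk
    rw [Finset.mul_sum]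
    refine Finset.sum_congr rfl fun k' _ => ?_
    have h2 : (fourier k' (t - y) : ℂ) = fourier k' t * fourier (-k') y := by
      rw [sub_eq_add_neg, fourier_apply, fourier_apply, fourier_apply, zsmul_add, zsmul_neg,
        neg_zsmul, AddCircle.toCircle_add, Circle.coe_mul]
    rw [h2, sub_eq_add_neg, fourier_add]
    ring
  simp only [h1]
  rw [integral_finsetSum]
  · simp only [integral_const_mul, an1_orth]
    by_cases hk : k ∈ Icc (-((b : ℤ) ^ σ)) ((b : ℤ) ^ σ)
    · rw [Finset.sum_eq_single_of_mem k hk]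
      · simp
      · intro k' _ hne
        rw [if_neg (sub_ne_zero.2 (Ne.symm hne)), mul_zero]
    · rw [an1_dkc0 hD b hb σ k hk]
      rw [Finset.sum_eq_zero]
      · simp
      · intro k' hk'
        have hne : k ≠ k' := fun h => hk (h ▸ hk')
        rw [if_neg (sub_ne_zero.2 hne), mul_zero]
  · intro k' _
    apply Integrable.const_mul
    exact ((fourier (k - k')).continuous.integrable_of_hasCompactSupport
      (HasCompactSupport.of_compactSpace _))

theorem an1_fk_cont (r : ℝ) (b σ : ℕ) : Continuous (fk r b σ) := by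
  unfold fk
  fun_prop

theorem st_AN1 (hD : ST_DKS) : ST_AN1 := by
  intro b d r σ Λ c t hb
  have h1 : ∀ y : TT d, tp Λ c y * ∏ i, fk r b (σ i) (t i - y i)
      = ∑ k ∈ Λ, c k * ∏ i, ((fourier (k i) (y i) : ℂ) * fk r b (σ i) (t i - y i)) := by
    intro y
    unfold tp
    rw [Finset.sum_mul]
    refine Finset.sum_congr rfl fun k _ => ?_
    rw [Finset.prod_mul_distrib]
    ring
  simp only [h1]
  rw [integral_finsetSum]
  · unfold dl tp mc
    refine Finset.sum_congr rfl fun k _ => ?_
    rw [integral_const_mul]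
    have h2 : ∫ y : TT d, ∏ i, ((fourier (k i) (y i) : ℂ) * fk r b (σ i) (t i - y i)) ∂haar d
        = ∏ i, ∫ y, (fourier (k i) y : ℂ) * fk r b (σ i) (t i - y) ∂haar1 := by
      unfold haar
      exact integral_fintype_prod_eq_prod
        (fun i y => (fourier (k i) y : ℂ) * fk r b (σ i) (t i - y))
    rw [h2]
    simp only [an1_one hD b hb]
    rw [Finset.prod_mul_distrib, Finset.prod_mul_distrib]
    ring
  · intro k _
    apply Integrable.const_mul
    have hc : Continuous fun y : TT d =>
        ∏ i, ((fourier (k i) (y i) : ℂ) * fk r b (σ i) (t i - y i)) := by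
      refine continuous_finsetProd _ fun i _ => ?_
      refine Continuous.mul ?_ ?_
      · exact (fourier (k i)).continuous.comp (continuous_apply i)
      · exact (an1_fk_cont r b (σ i)).comp (continuous_const.sub (continuous_apply i))
    exact hc.integrable_of_hasCompactSupport (HasCompactSupport.of_compactSpace _)

end Pool.Agent.Helper37.SU
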